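import Pool.Agent.Run7.h970.ND.Stm

/-!
# ND: the piece CNT (edges in a closed set)
-/

set_option autoImplicit false

namespace Pool.Agent.Run7.h688.ND

open SimpleGraph Pool.Agent.Run7.h970.ND

theorem par_exists {V : Type} {T : SimpleGraph V} {r x : V} (h : T.Reachable x r) (hx : x ≠ r) :
    ∃ y, Par T r x y := by
  classical
  obtain ⟨p, hp⟩ := h.exists_isPath
  cases p with
  | nil => exact absurd rfl hx
  | cons hadj p =>
    rename_i y
    rw [Walk.cons_isPath_iff] at hp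
    refine ⟨y, hadj, ?_⟩
    have h1 : s(x, y) ∉ p.edges := by
      intro h2
      exact hp.2 (Walk.fst_mem_support_of_mem_edges p h2)
    exact ⟨p.toDeleteEdge _ h1⟩

theorem par_asymm {V : Type} {T : SimpleGraph V} (hT : T.IsAcyclic) {r x y : V}
    (h1 : Par T r x y) (h2 : Par T r y x) : False := by
  have h3 : T.IsBridge s(x, y) := isAcyclic_iff_forall_isBridge.1 hT h1.1
  rw [isBridge_iff] at h3
  apply h3
  have h4 := h2.2
  rw [Sym2.eq_swap] at h4
  exact h4.trans h1.2.symm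

theorem par_uniq {V : Type} {T : SimpleGraph V} (hT : T.IsAcyclic) {r x x' y y' : V}
    (h1 : Par T r x y) (h2 : Par T r x' y') (h : s(x, y) = s(x', y')) : x = x' := by
  rw [Sym2.eq_iff] at h
  rcases h with ⟨h3, _⟩ | ⟨h3, h4⟩
  · exact h3
  · subst h3
    subst h4
    exact (par_asymm hT h1 h2).elim

theorem t_CNT : S_CNT := by
  classical
  intro V _ ι _ G T R r w L hC hw hU
  obtain ⟨U, hUd⟩ : ∃ U : Finset V, U = (St R r w L).toFinset := ⟨_, rfl⟩
  have hmem : ∀ x, x ∈ U ↔ x ∈ St R r w L := by intro x; rw [hUd, Set.mem_toFinset]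
  have hcard : (St R r w L).ncard = U.card := by rw [hUd, Set.ncard_eq_toFinset_card']
  have hrU : r ∈ U := (hmem r).2 ⟨0, Nat.zero_le _, Reachable.refl r⟩
  -- the parents in the trees
  have hpar : ∀ (b : ι) (x : V), ∃ y, x ≠ r → Par (T b) r x y := by
    intro b x
    by_cases hx : x = r
    · exact ⟨x, fun h => absurd hx h⟩
    · obtain ⟨y, hy⟩ := par_exists (((hC.tree b).connected.preconnected x r)) hx
      exact ⟨y, fun _ => hy⟩
  choose pb hpb using hpar
  -- the roots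
  have hroot : ∀ c c' : ℕ, c < c' → c' ≤ L → ¬ R.Reachable (rt r w c) (rt r w c') := by
    intro c c' h1 h2 h3
    obtain ⟨a, rfl⟩ : ∃ a, c' = a + 1 := ⟨c' - 1, by omega⟩
    apply hw a (by omega)
    exact ⟨c, by omega, h3⟩
  have hpr : ∀ x : V, ∃ y c, x ∈ U → x ∉ (Finset.range (L + 1)).image (rt r w) →
      c ≤ L ∧ R.Reachable (rt r w c) x ∧ Par R (rt r w c) x y := by
    intro x
    by_cases hx : x ∈ U ∧ x ∉ (Finset.range (L + 1)).image (rt r w)
    · obtain ⟨hx1, hx2⟩ := hx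
      obtain ⟨c, hc1, hc2⟩ := (hmem x).1 hx1
      have hne : x ≠ rt r w c := by
        intro h
        apply hx2
        rw [Finset.mem_image]
        exact ⟨c, Finset.mem_range.2 (by omega), h.symm⟩
      obtain ⟨y, hy⟩ := par_exists hc2.symm hne
      exact ⟨y, c, fun _ _ => ⟨hc1, hc2, hy⟩⟩
    · exact ⟨x, 0, fun h1 h2 => absurd ⟨h1, h2⟩ hx⟩
  choose pr cr hprr using hpr
  obtain ⟨A, hA⟩ : ∃ A : Finset (ι × V), A = Finset.univ ×ˢ (U.erase r) := ⟨_, rfl⟩
  obtain ⟨B, hB⟩ : ∃ B : Finset V, B = U \ (Finset.range (L + 1)).image (rt r w) := ⟨_, rfl⟩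
  obtain ⟨f, hf⟩ : ∃ f : ι × V → Sym2 V, f = fun q => s(q.2, pb q.1 q.2) := ⟨_, rfl⟩
  obtain ⟨g, hg⟩ : ∃ g : V → Sym2 V, g = fun x => s(x, pr x) := ⟨_, rfl⟩
  have hAm : ∀ q : ι × V, q ∈ A → q.2 ∈ U ∧ q.2 ≠ r := by
    intro q hq
    rw [hA, Finset.mem_product, Finset.mem_erase] at hq
    exact ⟨hq.2.2, hq.2.1⟩
  have hBm : ∀ x, x ∈ B → x ∈ U ∧ x ∉ (Finset.range (L + 1)).image (rt r w) := by
    intro x hx
    rw [hB, Finset.mem_sdiff] at hx
    exact hx
  have hfinj : Set.InjOn f (A : Set (ι × V)) := by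
    intro q hq q' hq' hqq
    obtain ⟨h1, h2⟩ := hAm q hq
    obtain ⟨h3, h4⟩ := hAm q' hq'
    rw [hf] at hqq
    simp only at hqq
    have p1 := hpb q.1 q.2 h2
    have p2 := hpb q'.1 q'.2 h4
    have hb : q.1 = q'.1 := by
      by_contra hne
      obtain ⟨-, -, -, h5⟩ := hU q.2 ((hmem _).1 h1) q.1 _ p1
      apply h5 q'.1 (fun h => hne h.symm)
      have h6 : s(q'.2, pb q'.1 q'.2) ∈ (T q'.1).edgeSet := p2.1
      rw [← hqq] at h6
      exact h6
    rw [← hb] at p2 hqq
    have hx := par_uniq (hC.tree q.1).isAcyclic p1 p2 hqq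
    exact Prod.ext hb hx
  have hginj : Set.InjOn g (B : Set V) := by
    intro x hx x' hx' hxx
    obtain ⟨h1, h2⟩ := hBm x hx
    obtain ⟨h3, h4⟩ := hBm x' hx'
    rw [hg] at hxx
    simp only at hxx
    obtain ⟨c1, c2, c3⟩ := hprr x h1 h2
    obtain ⟨d1, d2, d3⟩ := hprr x' h3 h4
    have hreach : R.Reachable x x' := by
      rw [Sym2.eq_iff] at hxx
      rcases hxx with ⟨h5, _⟩ | ⟨_, h5⟩
      · rw [h5]
      · rw [← h5]; exact c3.1.reachable
    have hcc : cr x = cr x' := by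
      by_contra hne
      have h6 : R.Reachable (rt r w (cr x)) (rt r w (cr x')) := (c2.trans hreach).trans d2.symm
      rcases lt_or_gt_of_ne hne with h7 | h7
      · exact hroot _ _ h7 d1 h6
      · exact hroot _ _ h7 c1 h6.symm
    rw [← hcc] at d3
    exact par_uniq hC.acyc c3 d3 hxx
  have hdisj : Disjoint (A.image f) (B.image g) := by
    rw [Finset.disjoint_left]
    intro e he1 he2
    rw [Finset.mem_image] at he1 he2
    obtain ⟨q, hq, rfl⟩ := he1
    obtain ⟨x, hx, hxe⟩ := he2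
    obtain ⟨h1, h2⟩ := hAm q hq
    obtain ⟨h3, h4⟩ := hBm x hx
    obtain ⟨-, -, h5, -⟩ := hU q.2 ((hmem _).1 h1) q.1 _ (hpb q.1 q.2 h2)
    obtain ⟨-, -, c3⟩ := hprr x h3 h4
    apply h5
    have h6 : g x ∈ R.edgeSet := by rw [hg]; exact c3.1
    rw [hxe, hf] at h6
    exact h6
  have hsub : ((A.image f ∪ B.image g : Finset (Sym2 V)) : Set (Sym2 V)) ⊆
      {e | e ∈ G.edgeSet ∧ ∀ v ∈ e, v ∈ St R r w L} := by
    intro e he
    rw [Finset.mem_coe, Finset.mem_union, Finset.mem_image, Finset.mem_image] at he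
    rcases he with ⟨q, hq, rfl⟩ | ⟨x, hx, rfl⟩
    · obtain ⟨h1, h2⟩ := hAm q hq
      obtain ⟨h3, h4, -, -⟩ := hU q.2 ((hmem _).1 h1) q.1 _ (hpb q.1 q.2 h2)
      rw [hf]
      refine ⟨h4, ?_⟩
      intro v hv
      rw [Sym2.mem_iff] at hv
      rcases hv with rfl | rfl
      · exact (hmem _).1 h1
      · exact h3
    · obtain ⟨h3, h4⟩ := hBm x hx
      obtain ⟨c1, c2, c3⟩ := hprr x h3 h4
      rw [hg]
      refine ⟨hC.le c3.1, ?_⟩
      intro v hv
      rw [Sym2.mem_iff] at hv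
      rcases hv with rfl | rfl
      · exact (hmem _).1 h3
      · exact ⟨cr x, c1, c2.trans c3.1.reachable⟩
  have h1 : (A.image f ∪ B.image g).card ≤ ec G (St R r w L) := by
    unfold ec
    rw [← Set.ncard_coe_finset]
    exact Set.ncard_le_ncard hsub (Set.toFinite _)
  rw [Finset.card_union_of_disjoint hdisj, Finset.card_image_of_injOn hfinj,
    Finset.card_image_of_injOn hginj] at h1
  have h2 : A.card = Fintype.card ι * (U.card - 1) := by
    rw [hA, Finset.card_product, Finset.card_erase_of_mem hrU, Finset.card_univ]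
  have h3 : U.card - (L + 1) ≤ B.card := by
    rw [hB]
    have h4 := Finset.le_card_sdiff ((Finset.range (L + 1)).image (rt r w)) U
    have h5 : ((Finset.range (L + 1)).image (rt r w)).card ≤ L + 1 := by
      refine Finset.card_image_le.trans ?_
      rw [Finset.card_range]
    omega
  rw [hcard]
  omega

end Pool.Agent.Run7.h688.ND
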