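import Pool.Agent.Run7.h970.ND.Stm
import Pool.Agent.S09049

/-!
# ND: the piece FIN (from the main theorem to S11671)
-/

set_option autoImplicit false

namespace Pool.Agent.Run7.h688.ND

open SimpleGraph Pool.Agent.Run7.h970.ND

/-- a forest whose components have diameter at most `d` -/
def Gd {V : Type} (d : ℕ) (H : SimpleGraph V) : Prop :=
  H.IsAcyclic ∧ ∀ u v : V, H.Reachable u v → H.dist u v ≤ d

theorem Gd.mono {V : Type} {d d' : ℕ} (h : d ≤ d') {H : SimpleGraph V} (hH : Gd d H) : Gd d' H :=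
  ⟨hH.1, fun u v huv => (hH.2 u v huv).trans h⟩

theorem Gd.anti {V : Type} {d : ℕ} {H H' : SimpleGraph V} (hH : Gd d H) (h : H' ≤ H) : Gd d H' := by
  refine ⟨hH.1.anti h, ?_⟩
  intro u v huv
  obtain ⟨p, hp, hpl⟩ := huv.exists_path_of_dist
  obtain ⟨p', hp', hpl'⟩ := (huv.mono h).exists_path_of_dist
  have h1 : (p.mapLe h).IsPath := hp.mapLe h
  have h2 : (⟨p.mapLe h, h1⟩ : H.Path u v) = ⟨p', hp'⟩ := (hH.1.subsingleton_path _ _).elim _ _
  have h3 : p.mapLe h = p' := congrArg Subtype.val h2
  have h4 : (p.mapLe h).length = p.length := Walk.length_map _ _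
  rw [h3, hpl', hpl] at h4
  rw [← h4]
  exact hH.2 u v (huv.mono h)

theorem cs_dist {V : Type} [Fintype V] {μ : ℕ} {R : SimpleGraph V} (h : ∀ v, cs R v ≤ μ) (u v : V)
    (huv : R.Reachable u v) : R.dist u v ≤ μ := by
  classical
  obtain ⟨p, hp, hpl⟩ := huv.exists_path_of_dist
  have h1 : (p.support.toFinset : Set V) ⊆ {x | R.Reachable u x} := by
    intro x hx
    rw [Finset.mem_coe, List.mem_toFinset] at hx
    exact (p.takeUntil x hx).reachable
  have h2 := Set.ncard_le_ncard h1 (Set.toFinite _)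
  rw [Set.ncard_coe_finset, List.toFinset_card_of_nodup hp.support_nodup,
    Walk.length_support] at h2
  have h3 : cs R u ≤ μ := h u
  unfold cs at h3
  omega

theorem iter_forests (D : ℕ) (hD : 1 ≤ D) (j : ℕ) : ∃ d : ℕ, 1 ≤ d ∧ ∀ (V : Type) [Fintype V]
    (A : ℕ → SimpleGraph V) (B : SimpleGraph V), (∀ i, (A i).IsAcyclic) → Gd D B →
    ∃ (H : ℕ → SimpleGraph V) (B' : SimpleGraph V), (∀ i, i < j → Gd d (H i)) ∧ Gd d B' ∧
      ∀ x y, ((∃ i, i < j ∧ (A i).Adj x y) ∨ B.Adj x y) →
        ((∃ i, i < j ∧ (H i).Adj x y) ∨ B'.Adj x y) := by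
  induction j with
  | zero =>
    refine ⟨D, hD, ?_⟩
    intro V _ A B _ hB
    exact ⟨A, B, fun i hi => absurd hi (by omega), hB, fun x y h => h⟩
  | succ j ih =>
    obtain ⟨d, hd1, hd⟩ := ih
    obtain ⟨f, hf⟩ := Pool.Agent.S09049.result d hd1
    refine ⟨max d f, le_max_of_le_left hd1, ?_⟩
    intro V _ A B hA hB
    obtain ⟨H, B', hH, hB', hcov⟩ := hd V A B hA hB
    obtain ⟨H₁, H₂, e1, -, e3, e4, e5, e6⟩ := hf V (A j ⊔ B') (A j) B' (hA j) hB'.1 hB'.2 rfl
    refine ⟨fun i => if i = j then H₁ else H i, H₂, ?_, ?_, ?_⟩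
    · intro i hi
      by_cases hij : i = j
      · simp only [hij, if_true]
        exact Gd.mono (le_max_right d f) ⟨e3, e5⟩
      · simp only [hij, if_false]
        exact Gd.mono (le_max_left d f) (hH i (by omega))
    · exact Gd.mono (le_max_right d f) ⟨e4, e6⟩
    · intro x y hxy
      have key : (A j ⊔ B').Adj x y → ((∃ i, i < j + 1 ∧
          ((fun i => if i = j then H₁ else H i) i).Adj x y) ∨ H₂.Adj x y) := by
        intro h1
        rw [← e1, sup_adj] at h1
        rcases h1 with h1 | h1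
        · left
          refine ⟨j, by omega, ?_⟩
          simpa using h1
        · exact Or.inr h1
      have key2 : ((∃ i, i < j ∧ (A i).Adj x y) ∨ B.Adj x y) → ((∃ i, i < j + 1 ∧
          ((fun i => if i = j then H₁ else H i) i).Adj x y) ∨ H₂.Adj x y) := by
        intro h1
        rcases hcov x y h1 with ⟨i, hi, h2⟩ | h2
        · left
          refine ⟨i, by omega, ?_⟩
          have hij : i ≠ j := by omega
          simpa [hij] using h2
        · exact key (by rw [sup_adj]; exact Or.inr h2)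
      rcases hxy with ⟨i, hi, h1⟩ | h1
      · by_cases hij : i = j
        · subst hij
          exact key (by rw [sup_adj]; exact Or.inl h1)
        · exact key2 (Or.inl ⟨i, by omega, h1⟩)
      · exact key2 (Or.inr h1)

theorem two_ec_le {V : Type} [Fintype V] (G : SimpleGraph V) [DecidableRel G.Adj] (S : Finset V) :
    2 * ec G (S : Set V) ≤ ((S ×ˢ S).filter (fun p => G.Adj p.1 p.2)).card := by
  classical
  obtain ⟨E, hE⟩ : ∃ E : Finset (Sym2 V),
    E = {e | e ∈ G.edgeSet ∧ ∀ v ∈ e, v ∈ (S : Set V)}.toFinset := ⟨_, rfl⟩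
  have hEc : ec G (S : Set V) = E.card := by
    rw [hE]; unfold ec; rw [Set.ncard_eq_toFinset_card']
  have hmaps : (((S ×ˢ S).filter (fun p => G.Adj p.1 p.2) : Finset (V × V)) : Set (V × V)).MapsTo
      (fun p => s(p.1, p.2)) E := by
    intro p hp
    rw [Finset.mem_coe, Finset.mem_filter, Finset.mem_product] at hp
    rw [Finset.mem_coe, hE, Set.mem_toFinset]
    refine ⟨hp.2, ?_⟩
    intro v hv
    rw [Sym2.mem_iff] at hv
    rcases hv with rfl | rfl
    · exact hp.1.1
    · exact hp.1.2
  rw [Finset.card_eq_sum_card_fiberwise hmaps, hEc, mul_comm]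
  rw [← smul_eq_mul]
  apply Finset.card_nsmul_le_sum
  intro e he
  rw [hE, Set.mem_toFinset] at he
  obtain ⟨h1, h2⟩ := he
  induction e using Sym2.ind with
  | _ x y =>
    have hxy : x ≠ y := G.ne_of_adj h1
    have hx : x ∈ S := h2 x (Sym2.mem_mk_left x y)
    have hy : y ∈ S := h2 y (Sym2.mem_mk_right x y)
    have h3 : ({(x, y), (y, x)} : Finset (V × V)) ⊆
        ((S ×ˢ S).filter (fun p => G.Adj p.1 p.2)).filter (fun p => s(p.1, p.2) = s(x, y)) := by
      intro p hp
      rw [Finset.mem_insert, Finset.mem_singleton] at hp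
      rw [Finset.mem_filter, Finset.mem_filter, Finset.mem_product]
      rcases hp with rfl | rfl
      · exact ⟨⟨⟨hx, hy⟩, h1⟩, rfl⟩
      · exact ⟨⟨⟨hy, hx⟩, Adj.symm h1⟩, Sym2.eq_swap⟩
    have h4 := Finset.card_le_card h3
    rw [Finset.card_pair (by
      intro h
      exact hxy (congrArg Prod.fst h))] at h4
    exact h4

theorem t_FIN : S_FIN := by
  classical
  intro hMAIN k ε hε
  -- graphs without edges
  have hbot : ∀ (d : ℕ) (V : Type) (G : SimpleGraph V), IsEmpty G.edgeSet →
      ∃ c : G.edgeSet → Fin k, ∀ i : Fin k,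
        (SimpleGraph.fromEdgeSet {e | ∃ h : e ∈ G.edgeSet, c ⟨e, h⟩ = i}).IsAcyclic ∧
        ∀ u v : V,
          (SimpleGraph.fromEdgeSet {e | ∃ h : e ∈ G.edgeSet, c ⟨e, h⟩ = i}).Reachable u v →
          (SimpleGraph.fromEdgeSet {e | ∃ h : e ∈ G.edgeSet, c ⟨e, h⟩ = i}).dist u v ≤ d := by
    intro d V G hG
    refine ⟨fun e => isEmptyElim e, fun i => ?_⟩
    have h1 : SimpleGraph.fromEdgeSet {e | ∃ h : e ∈ G.edgeSet,
        (fun e : G.edgeSet => (isEmptyElim e : Fin k)) ⟨e, h⟩ = i} = ⊥ := by
      ext x y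
      rw [fromEdgeSet_adj, bot_adj]
      constructor
      · rintro ⟨⟨h2, _⟩, _⟩
        exact hG.false ⟨_, h2⟩
      · exact False.elim
    have h2 : Gd d (SimpleGraph.fromEdgeSet {e | ∃ h : e ∈ G.edgeSet,
        (fun e : G.edgeSet => (isEmptyElim e : Fin k)) ⟨e, h⟩ = i}) := by
      rw [h1]
      refine ⟨isAcyclic_bot, ?_⟩
      intro u v huv
      rw [reachable_bot] at huv
      rw [huv, dist_self]
      exact Nat.zero_le _
    exact h2
  by_cases hk : k ≤ 1
  · refine ⟨0, ?_⟩
    intro V _ G _ hG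
    apply hbot
    constructor
    rintro ⟨e, he⟩
    induction e using Sym2.ind with
    | _ x y =>
      have hxy : x ≠ y := G.ne_of_adj he
      have h1 := hG {x, y} (by rw [Finset.card_pair hxy])
      have h2 := two_ec_le G {x, y}
      have h3 : 1 ≤ ec G (({x, y} : Finset V) : Set V) := by
        unfold ec
        rw [Nat.one_le_iff_ne_zero, Ne, Set.ncard_eq_zero (Set.toFinite _)]
        intro h4
        have h5 : s(x, y) ∈ {e | e ∈ G.edgeSet ∧ ∀ v ∈ e, v ∈ (({x, y} : Finset V) : Set V)} := by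
          refine ⟨he, ?_⟩
          intro v hv
          rw [Sym2.mem_iff] at hv
          simpa using hv
        rw [h4] at h5
        exact h5
      rw [Finset.card_pair hxy] at h1
      have h4 : (2 : ℝ) ≤ ((({x, y} : Finset V) ×ˢ ({x, y} : Finset V)).filter
          (fun p => G.Adj p.1 p.2)).card := by
        have : 2 ≤ ((({x, y} : Finset V) ×ˢ ({x, y} : Finset V)).filter
          (fun p => G.Adj p.1 p.2)).card := by omega
        exact_mod_cast this
      have h5 : (k : ℝ) ≤ 1 := by exact_mod_cast hk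
      push_cast at h1
      nlinarith
  · obtain ⟨K, rfl⟩ : ∃ K, k = K + 1 := ⟨k - 1, by omega⟩
    obtain ⟨μ, hμ⟩ := hMAIN K ε (by omega) hε
    obtain ⟨d, hd1, hd⟩ := iter_forests (max 1 μ) (le_max_left _ _) K
    refine ⟨d, ?_⟩
    intro V _ G _ hG
    by_cases hne : IsEmpty G.edgeSet
    · exact hbot d V G hne
    · have hV : Nonempty V := by
        rw [not_isEmpty_iff] at hne
        obtain ⟨⟨e, he⟩⟩ := hne
        induction e using Sym2.ind with
        | _ x y => exact ⟨x⟩
      obtain ⟨T, R, hC, hcs⟩ := hμ V G (by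
        intro S hS
        obtain ⟨S', hS'⟩ : ∃ S' : Finset V, (S' : Set V) = S := ⟨S.toFinset, by simp⟩
        rw [← hS', Set.ncard_coe_finset] at hS ⊢
        have h1 := hG S' hS
        have h2 := two_ec_le G S'
        have h3 : (2 : ℝ) * (ec G (S' : Set V) : ℝ) ≤
          (((S' ×ˢ S').filter (fun p => G.Adj p.1 p.2)).card : ℝ) := by exact_mod_cast h2
        push_cast at h1
        linarith)
      obtain ⟨H, B', hH, hB', hcov⟩ := hd V
        (fun i => if h : i < K then T ⟨i, h⟩ else ⊥) R (by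
          intro i
          by_cases h : i < K
          · simp only [h, dif_pos]
            exact (hC.tree _).isAcyclic
          · simp only [h, dif_neg, not_false_eq_true]
            exact isAcyclic_bot) ⟨hC.acyc, fun u v huv =>
              (cs_dist hcs u v huv).trans (le_max_right _ _)⟩
      obtain ⟨F, hF⟩ : ∃ F : Fin (K + 1) → SimpleGraph V,
        F = fun i : Fin (K + 1) => if (i : ℕ) < K then H (i : ℕ) else B' := ⟨_, rfl⟩
      have hFgd : ∀ i, Gd d (F i) := by
        intro i
        rw [hF]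
        by_cases h : (i : ℕ) < K
        · simp only [h, if_true]; exact hH i h
        · simp only [h, if_false]; exact hB'
      have hFcov : ∀ e : G.edgeSet, ∃ i, (e : Sym2 V) ∈ (F i).edgeSet := by
        rintro ⟨e, he⟩
        induction e using Sym2.ind with
        | _ x y =>
          have h1 : (∃ i, i < K ∧ ((fun i => if h : i < K then T ⟨i, h⟩ else ⊥) i).Adj x y) ∨
              R.Adj x y := by
            rcases hC.cov x y he with h2 | ⟨b, hb⟩
            · exact Or.inr h2
            · left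
              refine ⟨b, b.2, ?_⟩
              simp only [b.2, dif_pos]
              exact hb
          rcases hcov x y h1 with ⟨i, hi, h2⟩ | h2
          · refine ⟨⟨i, by omega⟩, ?_⟩
            rw [hF]
            simp only [hi, if_true]
            exact h2
          · refine ⟨⟨K, by omega⟩, ?_⟩
            rw [hF]
            simp only [lt_irrefl, if_false]
            exact h2
      choose c hc using hFcov
      refine ⟨c, fun i => ?_⟩
      have h1 : SimpleGraph.fromEdgeSet {e | ∃ h : e ∈ G.edgeSet, c ⟨e, h⟩ = i} ≤ F i := by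
        intro x y hxy
        rw [fromEdgeSet_adj] at hxy
        obtain ⟨⟨h2, h3⟩, _⟩ := hxy
        have h4 := hc ⟨s(x, y), h2⟩
        rw [h3] at h4
        exact h4
      exact (hFgd i).anti h1

end Pool.Agent.Run7.h688.ND
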